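import Pool.Agent.helper69.GR2B.Spec

/-!
# Project gb: module BGP (adapted from `Pool/Agent/helper70/GR2/G2P.lean`)
-/

set_option autoImplicit false

open Complex Metric Set Filter Topology MeasureTheory
open MPS (om)
open PPS (pre TT fd)
open XPS (Df er dens tau)
open Pool.Agent.helper16.Multibrot

noncomputable section

namespace GR

theorem BGP_SS (n : ℕ) (c : ℂ) (p : ℕ) (hp : 1 ≤ p) : 1 ≤ SS n c p := by
  unfold SS
  have h1 : (1 : ℕ) ∈ Finset.Icc 1 p := Finset.mem_Icc.2 ⟨le_rfl, hp⟩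
  have hA : A n c 1 = 1 := by
    unfold A
    rw [Finset.Ico_self, Finset.prod_empty]
  have h2 : ‖A n c 1‖ / ‖A n c 1‖ = 1 := by
    rw [hA, norm_one, div_one]
  have h3 : ‖A n c 1‖ / ‖A n c 1‖ ≤ ∑ j ∈ Finset.Icc 1 p, ‖A n c j‖ / ‖A n c 1‖ :=
    Finset.single_le_sum (f := fun j => ‖A n c j‖ / ‖A n c 1‖)
      (fun j _ => div_nonneg (norm_nonneg _) (norm_nonneg _)) h1
  have h4 : ∑ j ∈ Finset.Icc 1 p, ‖A n c j‖ / ‖A n c 1‖ ≤
      ∑ i ∈ Finset.Icc 1 p, ∑ j ∈ Finset.Icc 1 p, ‖A n c j‖ / ‖A n c i‖ :=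
    Finset.single_le_sum (f := fun i => ∑ j ∈ Finset.Icc 1 p, ‖A n c j‖ / ‖A n c i‖)
      (fun i _ => Finset.sum_nonneg fun j _ => div_nonneg (norm_nonneg _) (norm_nonneg _)) h1
  linarith

theorem BGP_num (p L : ℝ) (hp : 1 ≤ p) (hL : 0 ≤ L) (h : 1 + L ≤ 20 * (p * (1 + Real.log p))) :
    0 ≤ 1 + Real.log (1 + L) ∧ 1 + Real.log (1 + L) ≤ 4 * (1 + Real.log p) := by
  have hp0 : 0 < p := by linarith
  have hlp : 0 ≤ Real.log p := Real.log_nonneg hp
  have h1 : Real.log p ≤ p - 1 := Real.log_le_sub_one_of_pos hp0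
  have h2 : 1 + L ≤ 20 * p ^ 2 := by
    refine h.trans ?_
    have : p * (1 + Real.log p) ≤ p * p := mul_le_mul_of_nonneg_left (by linarith) hp0.le
    nlinarith
  have h3 : Real.log (1 + L) ≤ Real.log (20 * p ^ 2) := Real.log_le_log (by linarith) h2
  have h4 : Real.log (20 * p ^ 2) = Real.log 20 + 2 * Real.log p := by
    rw [Real.log_mul (by norm_num) (by positivity), Real.log_pow]
    norm_num
  have h5 : Real.log 20 ≤ 3 := by
    rw [Real.log_le_iff_le_exp (by norm_num)]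
    have h6 : (2.7182818283 : ℝ) < Real.exp 1 := Real.exp_one_gt_d9
    have h7 : Real.exp 3 = Real.exp 1 ^ 3 := by
      rw [← Real.exp_nat_mul]
      norm_num
    rw [h7]
    have h8 : (2.7182818283 : ℝ) ^ 3 ≤ Real.exp 1 ^ 3 := pow_le_pow_left₀ (by norm_num) h6.le 3
    refine le_trans ?_ h8
    norm_num
  have h9 : 0 ≤ Real.log (1 + L) := Real.log_nonneg (by linarith)
  constructor
  · linarith
  · rw [h4] at h3
    linarith

theorem BGP (hBG : BG_stmt) (hWEX : WEX_stmt) : BGP_stmt := by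
  obtain ⟨K, hK⟩ := hBG
  refine ⟨256 * |K|, fun c hc p hp x hx hZ => ?_⟩
  have hp1 : (1 : ℝ) ≤ p := by exact_mod_cast (le_trans one_le_two hp)
  have hlp : 0 ≤ Real.log p := Real.log_nonneg hp1
  have hlx : 0 ≤ Real.log x := Real.log_nonneg hx
  have hx0 : 0 < x := by linarith
  have hKn : 0 ≤ |K| := abs_nonneg K
  by_cases hch : c ∈ hyperbolic 2
  · rw [Metric.infDist_zero_of_mem hch]
    positivity
  · have h1 := hK c hc p hp x hx hZ
    have h2 := hWEX c hc hch p (le_trans one_le_two hp)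
    have h3 : 0 ≤ Real.log (SS 2 c p) := Real.log_nonneg (BGP_SS 2 c p (le_trans one_le_two hp))
    obtain ⟨h4, h5⟩ := BGP_num p (Real.log (SS 2 c p)) hp1 h3 h2
    have h6 : (1 + Real.log (1 + Real.log (SS 2 c p))) ^ 4 ≤ (4 * (1 + Real.log p)) ^ 4 :=
      pow_le_pow_left₀ h4 h5 4
    refine h1.trans ?_
    refine div_le_div_of_nonneg_right ?_ hx0.le
    refine mul_le_mul_of_nonneg_right ?_ (by linarith)
    calc K * (1 + Real.log (1 + Real.log (SS 2 c p))) ^ 4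
        ≤ |K| * (1 + Real.log (1 + Real.log (SS 2 c p))) ^ 4 :=
          mul_le_mul_of_nonneg_right (le_abs_self K) (by positivity)
      _ ≤ |K| * (4 * (1 + Real.log p)) ^ 4 := mul_le_mul_of_nonneg_left h6 hKn
      _ = 256 * |K| * (1 + Real.log p) ^ 4 := by ring

end GR
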